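import Pool.Agent.Z702.Defs

/-!
# A singular matrix modulo two has a kernel vector
-/

set_option autoImplicit false

namespace Pool.Agent.Z785

open Finset
open Pool.Agent.Z700 (Yd)
open Pool.Agent.Z702

theorem even_iff_cast (z : ℤ) : Even z ↔ (z : ZMod 2) = 0 := by
  rw [even_iff_two_dvd]
  exact (ZMod.intCast_zmod_eq_zero_iff_dvd z 2).symm

theorem t_LIN : Pool.Agent.Z702.S_LIN := by
  intro l x P h
  classical
  rw [Int.not_odd_iff_even, even_iff_cast] at h
  unfold Yd at h
  have h1 := (Int.castRingHom (ZMod 2)).map_det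
    (Matrix.of fun i j : P => if i = j then (∑ k ∈ P.erase i.1, l i k) + x i else -l i j)
  rw [show (Int.castRingHom (ZMod 2)) (Matrix.of fun i j : P =>
    if i = j then (∑ k ∈ P.erase i.1, l i k) + x i else -l i j).det = 0 from h] at h1
  obtain ⟨v, hv0, hv⟩ := Matrix.exists_mulVec_eq_zero_iff.2 h1.symm
  set J : Finset ℕ := (univ.filter (fun i : P => v i ≠ 0)).image Subtype.val with hJ
  have hmem : ∀ i : P, (i : ℕ) ∈ J ↔ v i ≠ 0 := by
    intro i
    rw [hJ, mem_image]
    constructor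
    · rintro ⟨j, hj, hji⟩
      rw [mem_filter] at hj
      have : j = i := Subtype.ext hji
      rw [← this]
      exact hj.2
    · intro hi
      exact ⟨i, by rw [mem_filter]; exact ⟨mem_univ _, hi⟩, rfl⟩
  have hJP : J ⊆ P := by
    intro p hp
    rw [hJ, mem_image] at hp
    obtain ⟨j, -, rfl⟩ := hp
    exact j.2
  let c : ℕ → ZMod 2 := fun q => if q ∈ J then 1 else 0
  have h01 : ∀ z : ZMod 2, z ≠ 0 → z = 1 := by decide
  have hneg : ∀ z : ZMod 2, -z = z := by decide
  have htwo : ∀ z : ZMod 2, z + z = 0 := by decide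
  have hvc : ∀ i : P, v i = c i := by
    intro i
    show v i = if (i : ℕ) ∈ J then 1 else 0
    split_ifs with hi
    · exact h01 _ ((hmem i).1 hi)
    · rw [hmem, not_not] at hi
      exact hi
  have hrow : ∀ p ∈ P, ((∑ k ∈ P.erase p, ((l p k : ℤ) : ZMod 2)) + ((x p : ℤ) : ZMod 2)) * c p +
      ∑ k ∈ P.erase p, ((l p k : ℤ) : ZMod 2) * c k = 0 := by
    intro p hp
    have h2 := congrFun hv ⟨p, hp⟩
    rw [Matrix.mulVec, dotProduct, Pi.zero_apply] at h2
    have h3 : ∀ j : P, ((Int.castRingHom (ZMod 2)).mapMatrix (Matrix.of fun i j : P =>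
        if i = j then (∑ k ∈ P.erase i.1, l i k) + x i else -l i j)) ⟨p, hp⟩ j * v j =
        (fun q : ℕ => (if p = q then (∑ k ∈ P.erase p, ((l p k : ℤ) : ZMod 2)) +
          ((x p : ℤ) : ZMod 2) else ((l p q : ℤ) : ZMod 2)) * c q) j := by
      intro j
      rw [hvc j, RingHom.mapMatrix_apply, Matrix.map_apply, Matrix.of_apply]
      show _ = (if p = (j : ℕ) then _ else _) * c j
      by_cases hj : p = (j : ℕ)
      · have hj' : (⟨p, hp⟩ : P) = j := Subtype.ext hj
        rw [if_pos hj', if_pos hj]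
        simp
      · have hj' : ¬ (⟨p, hp⟩ : P) = j := fun h => hj (congrArg Subtype.val h)
        rw [if_neg hj', if_neg hj]
        simp only [Int.coe_castRingHom, Int.cast_neg, hneg]
    rw [Finset.sum_congr rfl fun j _ => h3 j, Finset.sum_coe_sort P (fun q : ℕ => (if p = q then
      (∑ k ∈ P.erase p, ((l p k : ℤ) : ZMod 2)) + ((x p : ℤ) : ZMod 2) else
        ((l p q : ℤ) : ZMod 2)) * c q), ← Finset.add_sum_erase P _ hp, if_pos rfl] at h2
    rw [← h2]
    congr 1
    refine Finset.sum_congr rfl fun k hk => ?_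
    rw [if_neg (Finset.ne_of_mem_erase hk).symm]
  refine ⟨J, hJP, ?_, ?_, ?_⟩
  · obtain ⟨i, hi⟩ := Function.ne_iff.1 hv0
    exact ⟨i, (hmem i).2 hi⟩
  · intro p hp
    rw [mem_sdiff] at hp
    rw [even_iff_cast]
    have h2 := hrow p hp.1
    have h3 : c p = 0 := if_neg hp.2
    rw [h3, mul_zero, zero_add] at h2
    rw [Int.cast_sum, ← h2]
    have h4 : ∑ k ∈ J, ((l p k : ℤ) : ZMod 2) = ∑ k ∈ J, ((l p k : ℤ) : ZMod 2) * c k := by
      refine Finset.sum_congr rfl fun k hk => ?_
      rw [show c k = 1 from if_pos hk, mul_one]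
    rw [h4]
    refine Finset.sum_subset ?_ ?_
    · intro k hk
      rw [mem_erase]
      exact ⟨fun e => hp.2 (e ▸ hk), hJP hk⟩
    · intro k _ hk
      rw [show c k = 0 from if_neg hk, mul_zero]
  · intro p hp
    rw [even_iff_cast]
    have h2 := hrow p (hJP hp)
    rw [show c p = 1 from if_pos hp, mul_one] at h2
    have h3 : (∑ k ∈ P.erase p, ((l p k : ℤ) : ZMod 2)) +
        ∑ k ∈ P.erase p, ((l p k : ℤ) : ZMod 2) * c k =
        ∑ k ∈ P \ J, ((l p k : ℤ) : ZMod 2) := by
      rw [← Finset.sum_add_distrib]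
      symm
      have h4 : ∑ k ∈ P \ J, ((l p k : ℤ) : ZMod 2) =
          ∑ k ∈ P \ J, (((l p k : ℤ) : ZMod 2) + ((l p k : ℤ) : ZMod 2) * c k) := by
        refine Finset.sum_congr rfl fun k hk => ?_
        rw [show c k = 0 from if_neg (mem_sdiff.1 hk).2, mul_zero, add_zero]
      rw [h4]
      refine Finset.sum_subset ?_ ?_
      · intro k hk
        rw [mem_sdiff] at hk
        rw [mem_erase]
        exact ⟨fun e => hk.2 (e ▸ hp), hk.1⟩
      · intro k hk hk'
        have h5 : k ∈ J := by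
          by_contra hcon
          exact hk' (mem_sdiff.2 ⟨(mem_erase.1 hk).2, hcon⟩)
        rw [show c k = 1 from if_pos h5, mul_one, htwo]
    push_cast
    rw [← h3, ← h2]
    ring

end Pool.Agent.Z785
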